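import Pool.Agent.Helper32.Tok.LSFN

/-!
# Token machines: the operations on digits are computed in linear space
-/

namespace Pool.Agent.Helper32.Tok

open Pool.Agent.Helper65.LinSpace Pool.Agent.Helper78.Tok Finset

variable {α β : Type} [Ctx α] [Ctx β]

theorem sum_two_pow_lt (n : ℕ) : ∑ i ∈ range n, 2 ^ i < 2 ^ n := by
  induction n with
  | zero => simp
  | succ n ih =>
    rw [sum_range_succ, pow_succ]
    omega

section

variable {m : α → Mach} {C p l j S x k : α → ℕ}

theorem ls_qN {t : α → ℕ} (h : LSM m C) (hp : LS p) (hp0 : ∀ z, 0 < p z)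
    (hS : LS S) (ht : LS t) : LS (fun z => (m z).qN (dig (p z) (S z)) (t z)) := by
  have hσ := h.σ
  have hσ' : LS (fun z : α × ℕ => (m z.1).σ) := (lsm_comp h LS.fst).σ
  have h1 : LS (fun z => ∑ o ∈ range (m z).σ,
      dig (p z) (S z) (7 * (t z * (m z).σ + o) + 4) * capPow 2 o (C z)) := by
    refine LS.sum (f := fun z o => dig (p z) (S z) (7 * (t z * (m z).σ + o) + 4) *
      capPow 2 o (C z)) (C := fun z => p z * C z) ?_ hσ (LS.mul hp h.bd) ?_
    · have hC := h.bd
      fun_prop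
    · intro z
      have h2 : ∑ o ∈ range (m z).σ, dig (p z) (S z) (7 * (t z * (m z).σ + o) + 4) *
          capPow 2 o (C z) ≤ ∑ o ∈ range (m z).σ, p z * 2 ^ o := by
        refine sum_le_sum fun o _ => Nat.mul_le_mul (Nat.mod_lt _ (hp0 z)).le (min_le_left _ _)
      refine h2.trans ?_
      rw [← mul_sum]
      exact Nat.mul_le_mul_left _ ((sum_two_pow_lt _).le.trans (pow_le_C h z (σ_le _)))
  refine LS.congr h1 fun z => ?_
  unfold Mach.qN tab
  refine sum_congr rfl fun i hi => ?_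
  have hi' := mem_range.1 hi
  have h3 : 2 ^ i ≤ C z := pow_le_C h z (hi'.le.trans (σ_le _))
  rw [capPow, min_eq_left (by omega)]

theorem ls_ny (h : LSM m C) (hp : LS p) : LS (fun z => (m z).ny (p z)) := by
  have hb := h.b
  unfold Mach.ny
  fun_prop

theorem ls_rgn {lo n x : α → ℕ} (h1 : LS lo) (h2 : LS n) (h3 : LS x) :
    LS (fun z => rgn (lo z) (n z) (x z)) := by
  unfold rgn
  fun_prop

theorem ls_isY (h : LSM m C) (hp : LS p) (hl : LS l) (hS : LS S) :
    LS (fun z => (m z).isY (dig (p z) (S z)) (l z)) := by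
  have hG := h.G
  unfold Mach.isY
  fun_prop

theorem ls_isZ (h : LSM m C) (hp : LS p) (hl : LS l) (hj : LS j) (hS : LS S) :
    LS (fun z => (m z).isZ (p z) (dig (p z) (S z)) (l z) (j z)) := by
  have hG := h.G
  unfold Mach.isZ
  fun_prop

theorem ls_isN (h : LSM m C) (hp : LS p) (hl : LS l) (hS : LS S) :
    LS (fun z => (m z).isN (dig (p z) (S z)) (l z)) := by
  have hG := h.G
  unfold Mach.isN
  fun_prop

theorem ls_isP (h : LSM m C) (hp : LS p) (hl : LS l) (hj : LS j) (hS : LS S) :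
    LS (fun z => (m z).isP (dig (p z) (S z)) (l z) (j z)) := by
  have hG := h.G
  unfold Mach.isP
  fun_prop

theorem ls_isL {e : α → ℕ} (h : LSM m C) (hp : LS p) (he : LS e) :
    LS (fun z => (m z).isL (p z) (e z)) := by
  have hb := h.b
  unfold Mach.isL
  fun_prop

theorem ls_yR {i y e sg ac : α → ℕ} (h : LSM m C) (hp : LS p) (hp0 : ∀ z, 0 < p z) (hk : LS k)
    (hi : LS i) (hy : LS y) (he : LS e) (hsg : LS sg) (hac : LS ac) (hS : LS S) (hx : LS x) :
    LS (fun z => (m z).yR (p z) (k z) (i z) (y z) (e z) (sg z) (ac z) (dig (p z) (S z))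
      (x z)) := by
  have h1 := ls_isL h hp he
  have h2 := ls_cl h hk
  have h3 := ls_wc h
  have h4 := ls_wn h
  have h5 := ls_rgn h2 h3 hx
  have h6 : LS (fun z => rgn (i z * (m z).wn) (m z).wn (x z)) :=
    ls_rgn (by fun_prop) h4 hx
  have h7 : LS (fun z => invN (p z) (e z / 3 % (p z - 1) + 1)) := LS.invN hp (by fun_prop) hp0
  have h8 := ls_pow h
  unfold Mach.yR
  fun_prop

theorem ls_zR {u e sg : α → ℕ} (h : LSM m C) (hp : LS p) (hp0 : ∀ z, 0 < p z) (hk : LS k)
    (hu : LS u) (he : LS e) (hsg : LS sg) (hS : LS S) (hx : LS x) :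
    LS (fun z => (m z).zR (p z) (k z) (u z) (e z) (sg z) (dig (p z) (S z)) (x z)) := by
  have h2 := ls_cl h hk
  have h2' : LS (fun z => (m z).cl (k z + 1)) := ls_cl h (k := fun z => k z + 1) (by fun_prop)
  have h3 := ls_wc h
  have h5 := ls_rgn h2 h3 hx
  have h6 := ls_rgn h2' h3 hx
  have h7 : LS (fun z => invN (p z) (e z / 3 + 1)) := LS.invN hp (by fun_prop) hp0
  have h8 : LS (fun z => fhG (p z) ((m z).nv (m z).G) ((m z).top (u z)) (x z - (m z).cl (k z + 1))
      ((m z).varN (m z).G (fun j => dig (p z) (S z) (7 * j))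
        fun o => dig (p z) (S z) (7 * ((m z).cl (k z) + o)))) :=
    (LSFN (X := fun z j => dig (p z) (S z) (7 * j)) h hp hp0 (i := fun _ => 0) (LS.const 0)
      (y := fun _ => 0) (LS.const 0) (r := fun _ => 0) (LS.const 0) hu
      (q := fun z => x z - (m z).cl (k z + 1)) (by fun_prop) hk (by fun_prop)).2
  unfold Mach.zR
  fun_prop

theorem ls_nR (h : LSM m C) (hp : LS p) (hp0 : ∀ z, 0 < p z) (hl : LS l) (hj : LS j) (hS : LS S)
    (hx : LS x) : LS (fun z => (m z).nR (p z) (l z) (j z) (dig (p z) (S z)) (x z)) := by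
  have hY := ls_isY h hp hl hS
  have hZ := ls_isZ h hp hl hj hS
  have hN := ls_isN h hp hl hS
  have hG := h.G
  have hw := ls_wn h
  have hny := ls_ny h hp
  have hq : LS (fun z => (m z).qN (dig (p z) (S z)) (l z / ((m z).G + 2) + 1)) :=
    ls_qN h hp hp0 hS (by fun_prop)
  have hi : LS (fun z => invN (p z) (j z / (2 * (m z).G + 3) + 1)) :=
    LS.invN hp (by fun_prop) hp0
  have hz : LS (fun z => (m z).zR (p z) (l z / ((m z).G + 2))
      ((m z).qN (dig (p z) (S z)) (l z / ((m z).G + 2) + 1)) (j z)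
      (dig (p z) (S z) (7 * (l z + 1) + 3)) (dig (p z) (S z)) (x z)) :=
    ls_zR h hp hp0 (by fun_prop) hq hj (by fun_prop) hS hx
  have hy : LS (fun z => (m z).yR (p z) (l z / ((m z).G + 2)) (dig (p z) (S z) (7 * (l z + 1) + 2))
      (j z / (m z).ny (p z)) (j z % (m z).ny (p z)) (dig (p z) (S z) (7 * (l z + 1) + 3))
      (dig (p z) (S z) (7 * (l z / ((m z).G + 2)) + 5)) (dig (p z) (S z)) (x z)) :=
    ls_yR h hp hp0 (by fun_prop) (by fun_prop) (by fun_prop) (by fun_prop) (by fun_prop)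
      (by fun_prop) hS hx
  unfold Mach.nR
  fun_prop

theorem ls_cMd (h : LSM m C) (hp : LS p) (hl : LS l) (hj : LS j) (hS : LS S) :
    LS (fun z => (m z).cMd (p z) (l z) (j z) (dig (p z) (S z))) := by
  have hY := ls_isY h hp hl hS
  have hZ := ls_isZ h hp hl hj hS
  have hN := ls_isN h hp hl hS
  have hP := ls_isP h hp hl hj hS
  have hG := h.G
  have hny := ls_ny h hp
  have hL : LS (fun z => (m z).isL (p z) (j z % (m z).ny (p z))) :=
    ls_isL h hp (by fun_prop)
  unfold Mach.cMd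
  fun_prop

theorem ls_cNd (h : LSM m C) (hp : LS p) (hl : LS l) (hj : LS j) (hS : LS S) :
    LS (fun z => (m z).cNd (p z) (l z) (j z) (dig (p z) (S z))) := by
  have hY := ls_isY h hp hl hS
  have hZ := ls_isZ h hp hl hj hS
  have hN := ls_isN h hp hl hS
  have hP := ls_isP h hp hl hj hS
  have hG := h.G
  have hny := ls_ny h hp
  have hL : LS (fun z => (m z).isL (p z) (j z % (m z).ny (p z))) :=
    ls_isL h hp (by fun_prop)
  unfold Mach.cNd
  fun_prop

theorem ls_cSg (h : LSM m C) (hp : LS p) (hl : LS l) (hj : LS j) (hS : LS S) :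
    LS (fun z => (m z).cSg (p z) (l z) (j z) (dig (p z) (S z))) := by
  have hY := ls_isY h hp hl hS
  have hZ := ls_isZ h hp hl hj hS
  have hN := ls_isN h hp hl hS
  have hP := ls_isP h hp hl hj hS
  have hG := h.G
  have hny := ls_ny h hp
  have hL : LS (fun z => (m z).isL (p z) (j z % (m z).ny (p z))) :=
    ls_isL h hp (by fun_prop)
  unfold Mach.cSg
  fun_prop

theorem ls_nQ (h : LSM m C) (hp : LS p) (hl : LS l) (hj : LS j) (hS : LS S)
    (hx : LS x) : LS (fun z => (m z).nQ (p z) (l z) (j z) (dig (p z) (S z)) (x z)) := by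
  have hY := ls_isY h hp hl hS
  have hZ := ls_isZ h hp hl hj hS
  have hG := h.G
  have hσ := h.σ
  have hny := ls_ny h hp
  have hpw := ls_pow h
  have hL : LS (fun z => (m z).isL (p z) (j z % (m z).ny (p z))) :=
    ls_isL h hp (by fun_prop)
  have hA : LS (fun z => (m z).A (dig (2 ^ (m z).σ) (j z / (m z).ny (p z))
      (j z % (m z).ny (p z) / 3 / (p z - 1)))) := ls_A h (by fun_prop)
  unfold Mach.nQ
  fun_prop

theorem ls_nAc (h : LSM m C) (hp : LS p) (hl : LS l) (hj : LS j) (hS : LS S)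
    (hx : LS x) : LS (fun z => (m z).nAc (p z) (l z) (j z) (dig (p z) (S z)) (x z)) := by
  have hY := ls_isY h hp hl hS
  have hG := h.G
  have hny := ls_ny h hp
  have hL : LS (fun z => (m z).isL (p z) (j z % (m z).ny (p z))) :=
    ls_isL h hp (by fun_prop)
  unfold Mach.nAc
  fun_prop

/-- `nAu` with a bounded number of variables. -/
theorem nAu_eq (m : Mach) (p l j : ℕ) (a : ℕ → ℕ) (x : ℕ) : m.nAu p l j a x =
  ifz (m.isY a l * eq01 x (l / (m.G + 2))) (a (7 * x + 6))
    (ifz (m.isL p (j % m.ny p))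
      (ifz (j % m.ny p % 3)
        (ifz (j % m.ny p / 3 % (p - 1)) 0 (a (7 * x + 6)))
        (ifz (j % m.ny p % 3 - 1)
          ((a (7 * x + 6) + fhG p (m.nv (min (a (7 * (l + 1) + 2)) m.G))
            (m.chk (a (7 * (l + 1) + 2)) (j / m.ny p) (j % m.ny p / 3 / (p - 1))) 0
            (m.varN (a (7 * (l + 1) + 2)) (fun i => a (7 * i))
              fun o => a (7 * (m.cl (l / (m.G + 2)) + o)))) % p)
          (a (7 * x + 6))))
      (a (7 * x + 6))) := by
  unfold Mach.nAu
  by_cases h : m.isY a l = 0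
  · rw [h, zero_mul, ifz_zero, ifz_zero]
  · have h1 : a (7 * (l + 1) + 2) < m.G := by
      by_contra h2
      refine h ?_
      unfold Mach.isY lt01
      rw [if_neg h2, mul_zero, mul_zero]
    rw [min_eq_left h1.le]

theorem ls_nAu (h : LSM m C) (hp : LS p) (hp0 : ∀ z, 0 < p z) (hl : LS l) (hj : LS j) (hS : LS S)
    (hx : LS x) : LS (fun z => (m z).nAu (p z) (l z) (j z) (dig (p z) (S z)) (x z)) := by
  have hY := ls_isY h hp hl hS
  have hG := h.G
  have hny := ls_ny h hp
  have hL : LS (fun z => (m z).isL (p z) (j z % (m z).ny (p z))) :=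
    ls_isL h hp (by fun_prop)
  have hf : LS (fun z => fhG (p z) ((m z).nv (min (dig (p z) (S z) (7 * (l z + 1) + 2)) (m z).G))
      ((m z).chk (dig (p z) (S z) (7 * (l z + 1) + 2)) (j z / (m z).ny (p z))
        (j z % (m z).ny (p z) / 3 / (p z - 1))) 0
      ((m z).varN (dig (p z) (S z) (7 * (l z + 1) + 2)) (fun i => dig (p z) (S z) (7 * i))
        fun o => dig (p z) (S z) (7 * ((m z).cl (l z / ((m z).G + 2)) + o)))) :=
    (LSFN (X := fun z i => dig (p z) (S z) (7 * i)) h hp hp0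
      (i := fun z => dig (p z) (S z) (7 * (l z + 1) + 2)) (by fun_prop)
      (y := fun z => j z / (m z).ny (p z)) (by fun_prop)
      (r := fun z => j z % (m z).ny (p z) / 3 / (p z - 1)) (by fun_prop)
      (u := fun _ => 0) (LS.const 0) (q := fun _ => 0) (LS.const 0)
      (k := fun z => l z / ((m z).G + 2)) (by fun_prop) (by fun_prop)).1
  simp only [nAu_eq]
  fun_prop

theorem ls_opA (h : LSM m C) (hp : LS p) (hp0 : ∀ z, 0 < p z) (hl : LS l) (hj : LS j) (hS : LS S)
    (hx : LS x) : LS (fun z => (m z).opA (p z) (l z) (j z) (dig (p z) (S z)) (x z)) := by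
  have h1 := ls_nR h hp hp0 hl hj hS (x := fun z => x z / 7) (by fun_prop)
  have h2 := ls_nQ h hp hl hj hS (x := fun z => x z / 7) (by fun_prop)
  have h3 := ls_nAc h hp hl hj hS (x := fun z => x z / 7) (by fun_prop)
  have h4 := ls_nAu h hp hp0 hl hj hS (x := fun z => x z / 7) (by fun_prop)
  have h5 := ls_cMd h hp hl hj hS
  have h6 := ls_cNd h hp hl hj hS
  have h7 := ls_cSg h hp hl hj hS
  unfold Mach.opA
  fun_prop

theorem ls_baseA (h : LSM m C) (hp : LS p) (hp0 : ∀ z, 0 < p z) (hS : LS S)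
    (hx : LS x) : LS (fun z => (m z).baseA (p z) (dig (p z) (S z)) (x z)) := by
  have hq0 := h.q0
  have hpw := ls_pow h
  have hcl : LS (fun z => (m z).cl 0) := ls_cl h (k := fun _ => 0) (LS.const 0)
  have hwc := ls_wc h
  have hr : LS (fun z => rgn ((m z).cl 0) (m z).wc (x z / 7)) :=
    ls_rgn hcl hwc (by fun_prop)
  have hq : LS (fun z => (m z).qN (dig (p z) (S z)) 0) :=
    ls_qN h hp hp0 hS (t := fun _ => 0) (LS.const 0)
  have hM : LS (fun z => (m z).M0 ((m z).qN (dig (p z) (S z)) 0)) :=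
    LS.comp (g := fun z : α × ℕ => (m z.1).M0 z.2)
      (f := fun z : α => (z, (m z).qN (dig (p z) (S z)) 0)) h.M0 (by fun_prop)
  unfold Mach.baseA
  fun_prop

end

theorem LSOP : LSOP_stmt := by
  intro α _ m C p h hp hp0
  constructor
  · exact ls_opA (α := α × ℕ × ℕ × ℕ × ℕ) (m := fun z => m z.1) (C := fun z => C z.1)
      (p := fun z => p z.1) (l := fun z => z.2.1) (j := fun z => z.2.2.1)
      (S := fun z => z.2.2.2.1) (x := fun z => z.2.2.2.2) (lsm_comp h LS.fst)
      (by fun_prop) (fun z => hp0 z.1) (by fun_prop) (by fun_prop) (by fun_prop) (by fun_prop)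
  · exact ls_baseA (α := α × ℕ × ℕ) (m := fun z => m z.1) (C := fun z => C z.1)
      (p := fun z => p z.1) (S := fun z => z.2.1) (x := fun z => z.2.2)
      (lsm_comp h LS.fst) (by fun_prop) (fun z => hp0 z.1) (by fun_prop) (by fun_prop)

end Pool.Agent.Helper32.Tok
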