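import Pool.Agent.Helper78.Tok.Goals
import Pool.Agent.Helper65.LinSpace.Block

/-!
# Token machines: at the true values the polynomials give the true values
-/

namespace Pool.Agent.Helper32.Tok

open Pool.Agent.Helper65.LinSpace Pool.Agent.Helper78.Tok Finset

variable {m : Pool.Agent.Helper78.Tok.Mach}

theorem conf_zero (m : Pool.Agent.Helper78.Tok.Mach) : m.conf 0 = (m.q0, m.M0) := rfl

theorem conf_succ (m : Pool.Agent.Helper78.Tok.Mach) (t : ℕ) : m.conf (t + 1) =
    (m.N (m.conf t).1 ((m.conf t).2 (m.A (m.conf t).1)),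
      Function.update (m.conf t).2 (m.A (m.conf t).1)
        (m.W (m.conf t).1 ((m.conf t).2 (m.A (m.conf t).1)))) := rfl

theorem conf_lt (hm : m.Ok) (t : ℕ) :
    (m.conf t).1 < 2 ^ m.σ ∧ ∀ x, (m.conf t).2 x < 2 ^ m.a := by
  induction t with
  | zero => exact ⟨hm.hq0, hm.hM0⟩
  | succ t ih =>
    rw [conf_succ]
    refine ⟨hm.hN _ _, fun x => ?_⟩
    simp only [Function.update_apply]
    split_ifs
    · exact hm.hW _ _
    · exact ih.2 x

/-- The events of the block `k`. -/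
def EE (m : Pool.Agent.Helper78.Tok.Mach) (k t : ℕ) : ℕ := (m.conf (k * (m.G * m.b) + t)).1

/-- The contents in the block `k`. -/
def CC (m : Pool.Agent.Helper78.Tok.Mach) (k t x : ℕ) : ℕ := (m.conf (k * (m.G * m.b) + t)).2 x

theorem EE_lt (hm : m.Ok) (k t : ℕ) : EE m k t < 2 ^ m.σ := (conf_lt hm _).1

theorem CC_lt (hm : m.Ok) (k t x : ℕ) : CC m k t x < 2 ^ m.a := (conf_lt hm _).2 x

theorem EE_succ (m : Pool.Agent.Helper78.Tok.Mach) (k t : ℕ) :
    EE m k (t + 1) = m.N (EE m k t) (CC m k t (m.A (EE m k t))) := rfl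

theorem CC_succ (m : Pool.Agent.Helper78.Tok.Mach) (k t x : ℕ) :
    CC m k (t + 1) x = if m.A (EE m k t) = x then m.W (EE m k t) (CC m k t x) else CC m k t x := by
  have h : CC m k (t + 1) x = Function.update (m.conf (k * (m.G * m.b) + t)).2 (m.A (EE m k t))
    (m.W (EE m k t) (CC m k t (m.A (EE m k t)))) x := rfl
  rw [h, Function.update_apply]
  by_cases h1 : x = m.A (EE m k t)
  · rw [if_pos h1, if_pos h1.symm, ← h1]
  · rw [if_neg h1, if_neg fun h2 => h1 h2.symm]
    rfl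

theorem tn_eq (m : Pool.Agent.Helper78.Tok.Mach) (k x : ℕ) :
    m.tn k x = EE m k 0 + 2 ^ m.σ * CC m k 0 x := rfl

theorem tn_lt (hm : m.Ok) (k x : ℕ) : m.tn k x < 2 ^ m.wc := by
  have h1 := EE_lt hm k 0
  have h2 : 2 ^ m.σ * (CC m k 0 x + 1) ≤ 2 ^ m.σ * 2 ^ m.a :=
    Nat.mul_le_mul_left _ (CC_lt hm k 0 x)
  rw [tn_eq]
  unfold Mach.wc
  rw [pow_add]
  rw [Nat.mul_add] at h2
  omega

/-- The number which codes the events of the intervals before `i` and the query. -/
def zz (m : Pool.Agent.Helper78.Tok.Mach) (k i x : ℕ) : ℕ :=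
  tab (2 ^ m.σ) (i * m.b) (fun t => EE m k (t + 1)) + 2 ^ (i * m.wn) * m.tn k x

theorem pow_wn (m : Pool.Agent.Helper78.Tok.Mach) (i : ℕ) :
    2 ^ (i * m.wn) = (2 ^ m.σ) ^ (i * m.b) := by
  rw [← pow_mul]
  congr 1
  unfold Mach.wn
  ring

theorem tabE_lt (hm : m.Ok) (k i : ℕ) :
    tab (2 ^ m.σ) (i * m.b) (fun t => EE m k (t + 1)) < 2 ^ (i * m.wn) := by
  rw [pow_wn]
  exact tab_lt fun t _ => EE_lt hm k (t + 1)

theorem zz_lt (hm : m.Ok) (k i x : ℕ) : zz m k i x < 2 ^ m.nv i := by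
  have h1 := tabE_lt hm k i
  have h2 : 2 ^ (i * m.wn) * (m.tn k x + 1) ≤ 2 ^ (i * m.wn) * 2 ^ m.wc :=
    Nat.mul_le_mul_left _ (tn_lt hm k x)
  unfold zz Mach.nv
  rw [pow_add]
  rw [Nat.mul_add] at h2
  omega

theorem zz_mod (hm : m.Ok) (k i x : ℕ) :
    zz m k i x % 2 ^ (i * m.wn) = tab (2 ^ m.σ) (i * m.b) (fun t => EE m k (t + 1)) := by
  unfold zz
  rw [Nat.add_mul_mod_self_left, Nat.mod_eq_of_lt (tabE_lt hm k i)]

theorem zz_div (hm : m.Ok) (k i x : ℕ) : zz m k i x / 2 ^ (i * m.wn) = m.tn k x := by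
  unfold zz
  rw [Nat.add_mul_div_left _ _ (by positivity), Nat.div_eq_of_lt (tabE_lt hm k i), zero_add]

/-- The digits of the number. -/
theorem zz_dig (hm : m.Ok) (k i x : ℕ) {t : ℕ} (ht : t < i * m.b) :
    dig (2 ^ m.σ) (zz m k i x) t = EE m k (t + 1) := by
  rw [← dig_mod_pow _ _ ht, ← pow_wn, zz_mod hm, dig_tab (fun t _ => EE_lt hm k (t + 1)) ht]

/-- The bits of the number are the true values. -/
theorem zz_bits (hm : m.Ok) (p : ℕ) (k u x : ℕ) {i : ℕ} (hi : i ≤ m.G) (j : ℕ) :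
    m.vars p i (fun j => m.V p k (j / m.wn) u (j % m.wn)) (m.T p k x) j =
      bitZ p (zz m k i x) j := by
  have hσ := hm.hσ
  have hb := hm.hb
  have hwn : 0 < m.wn := Nat.mul_pos hσ hb
  unfold Mach.vars
  by_cases hj : j < i * m.wn
  · rw [if_pos hj]
    have h1 : j / m.wn < i := (Nat.div_lt_iff_lt_mul hwn).2 hj
    have h2 : j / m.wn < m.G := lt_of_lt_of_le h1 hi
    unfold Mach.V Mach.vn bitZ
    simp only
    rw [if_pos h2]
    congr 1
    -- left hand side
    have h3 : j % m.wn / m.σ < m.b := by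
      rw [Nat.div_lt_iff_lt_mul hσ, mul_comm]
      exact Nat.mod_lt _ hwn
    have h4 : j % m.wn % m.σ < m.σ := Nat.mod_lt _ hσ
    have h5 : j % m.wn = j % m.wn / m.σ * m.σ + j % m.wn % m.σ := (Nat.div_add_mod' _ _).symm
    have h6 : j % m.wn % m.σ = j % m.σ := by
      unfold Mach.wn
      exact Nat.mod_mul_right_mod j m.σ m.b
    have h7 : k * (m.G * m.b) + j / m.wn * m.b + j % m.wn / m.σ + 1 =
        k * (m.G * m.b) + (j / m.σ + 1) := by
      have h8 : j / m.wn * m.b + j % m.wn / m.σ = j / m.σ := by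
        unfold Mach.wn
        rw [Nat.mod_mul_right_div_self, ← Nat.div_div_eq_div_mul, Nat.div_add_mod']
      omega
    have hL : dig 2 (tab (2 ^ m.σ) m.b fun r =>
        (m.conf (k * (m.G * m.b) + j / m.wn * m.b + r + 1)).1) (j % m.wn) =
        dig 2 (EE m k (j / m.σ + 1)) (j % m.σ) := by
      rw [h5, dig_tab_block (by norm_num) (fun r _ => (conf_lt hm _).1) h3 h4, h6, h7]
      rfl
    rw [hL]
    -- right hand side
    have h9 : j / m.σ < i * m.b := by
      rw [Nat.div_lt_iff_lt_mul hσ]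
      refine lt_of_lt_of_eq hj ?_
      unfold Mach.wn
      ring
    rw [← dig_mod_pow _ _ hj, zz_mod hm]
    have h10 : j = j / m.σ * m.σ + j % m.σ := (Nat.div_add_mod' _ _).symm
    conv_rhs => rw [h10]
    rw [dig_tab_block (by norm_num) (fun r _ => EE_lt hm k (r + 1)) h9 (Nat.mod_lt _ hσ)]
  · rw [if_neg hj]
    push Not at hj
    obtain ⟨o, rfl⟩ := Nat.exists_eq_add_of_le hj
    rw [Nat.add_sub_cancel_left]
    unfold Mach.T bitZ
    congr 1
    conv_rhs => unfold dig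
    rw [pow_add, ← Nat.div_div_eq_div_mul, zz_div hm]
    rfl

/-- The extension at the true values. -/
theorem fhat_true (hm : m.Ok) (p : ℕ) (k u x : ℕ) {i : ℕ} (hi : i ≤ m.G) (F : ℕ → ℕ) (q : ℕ) :
    fhat p (m.nv i) F q (m.vars p i (fun j => m.V p k (j / m.wn) u (j % m.wn)) (m.T p k x)) =
      bitZ p (F (zz m k i x)) q := by
  rw [← fhat_bits p (m.nv i) F q (zz_lt hm k i x)]
  exact fhat_congr p fun j _ => zz_bits hm p k u x hi j

/-! ### The functions at the true number -/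

theorem s0_zz (hm : m.Ok) (k i x : ℕ) : m.s0 i (zz m k i x) = EE m k 0 := by
  unfold Mach.s0
  rw [zz_div hm, tn_eq, Nat.add_mul_mod_self_left, Nat.mod_eq_of_lt (EE_lt hm k 0)]

theorem c0_zz (hm : m.Ok) (k i x : ℕ) : m.c0 i (zz m k i x) = CC m k 0 x := by
  unfold Mach.c0
  rw [zz_div hm, tn_eq, Nat.add_mul_div_left _ _ (by positivity),
    Nat.div_eq_of_lt (EE_lt hm k 0), zero_add]

theorem ez_zz (hm : m.Ok) (k i x : ℕ) {t : ℕ} (ht : t ≤ i * m.b) :
    m.ez i (zz m k i x) t = EE m k t := by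
  unfold Mach.ez
  rcases Nat.eq_zero_or_pos t with h | h
  · rw [h, ifz_zero, s0_zz hm]
  · rw [ifz_ne (by omega), zz_dig hm k i x (by omega), Nat.sub_add_cancel h]

theorem ev_zz (hm : m.Ok) (k i x y : ℕ) {n t : ℕ} (ht : t < i * m.b + n)
    (hy : ∀ j < n, dig (2 ^ m.σ) y j = EE m k (i * m.b + j)) :
    m.ev i y (zz m k i x) t = EE m k t := by
  unfold Mach.ev lt01
  by_cases h : t < i * m.b
  · rw [if_pos h, ifz_ne one_ne_zero, ez_zz hm k i x h.le]
  · rw [if_neg h, ifz_zero, hy _ (by omega)]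
    congr 1
    omega

theorem cont_zz (hm : m.Ok) (k i x y : ℕ) {n : ℕ}
    (hy : ∀ t < n, m.ev i y (zz m k i x) t = EE m k t) :
    m.cont i y (zz m k i x) x n = CC m k n x := by
  induction n with
  | zero => exact c0_zz hm k i x
  | succ n ih =>
    have h1 : m.cont i y (zz m k i x) x (n + 1) =
        ifz (eq01 (m.A (m.ev i y (zz m k i x) n)) x) (m.cont i y (zz m k i x) x n)
          (m.W (m.ev i y (zz m k i x) n) (m.cont i y (zz m k i x) x n)) := rfl
    rw [h1, hy n (by omega), ih fun t ht => hy t (by omega), ifz_eq01, CC_succ]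

/-- The factor `r` of a transcript which begins with the true digits `0, …, r`. -/
theorem chk_zz (hm : m.Ok) (k i : ℕ) {y r : ℕ}
    (hy : ∀ j ≤ r, dig (2 ^ m.σ) y j = EE m k (i * m.b + j)) :
    m.chk i y r (zz m k i (m.A (dig (2 ^ m.σ) y r))) =
      if dig (2 ^ m.σ) y (r + 1) = EE m k (i * m.b + (r + 1)) then 1 else 0 := by
  unfold Mach.chk
  have h1 : ifz r (eq01 (dig (2 ^ m.σ) y 0)
      (m.ez i (zz m k i (m.A (dig (2 ^ m.σ) y r))) (i * m.b))) 1 = 1 := by
    rw [ez_zz hm k i _ le_rfl]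
    rcases Nat.eq_zero_or_pos r with h | h
    · rw [h, ifz_zero]
      exact eq01_of (hy 0 (Nat.zero_le _))
    · rw [ifz_ne (by omega)]
  rw [h1, one_mul, cont_zz hm k i _ y (fun t ht => ev_zz hm k i _ y ht fun j hj => hy j hj.le),
    hy r le_rfl]
  unfold eq01
  rfl

/-- The factor `0`. -/
theorem chk_zero (hm : m.Ok) (k i x : ℕ) {y : ℕ}
    (hy : dig (2 ^ m.σ) y 0 ≠ EE m k (i * m.b)) : m.chk i y 0 (zz m k i x) = 0 := by
  unfold Mach.chk
  rw [ifz_zero, ez_zz hm k i _ le_rfl]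
  unfold eq01
  rw [if_neg hy, zero_mul]

theorem bitZ_zero (p : ℕ) : bitZ p 0 0 = 0 := by simp [bitZ, dig]

theorem bitZ_ite (p : ℕ) (P : Prop) [Decidable P] :
    bitZ p (if P then 1 else 0) 0 = if P then 1 else 0 := by
  split_ifs <;> simp [bitZ, dig]

/-- The product of the factors. -/
theorem prod_chk (hm : m.Ok) (p : ℕ) (k i y : ℕ) (n : ℕ) :
    ∏ r ∈ range (n + 1), bitZ p (m.chk i y r (zz m k i (m.A (dig (2 ^ m.σ) y r)))) 0 =
      if ∀ j ≤ n + 1, dig (2 ^ m.σ) y j = EE m k (i * m.b + j) then 1 else 0 := by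
  induction n with
  | zero =>
    rw [prod_range_one]
    by_cases h0 : dig (2 ^ m.σ) y 0 = EE m k (i * m.b)
    · rw [chk_zz hm k i fun j hj => by rw [Nat.le_zero.mp hj]; exact h0, bitZ_ite]
      refine if_congr ⟨fun h j hj => ?_, fun h => h 1 le_rfl⟩ rfl rfl
      rcases Nat.eq_zero_or_pos j with h1 | h1
      · rw [h1]; exact h0
      · rw [show j = 0 + 1 by omega]; exact h
    · rw [chk_zero hm k i _ h0, bitZ_zero, if_neg fun h => h0 (h 0 (Nat.zero_le _))]
  | succ n ih =>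
    rw [prod_range_succ, ih]
    by_cases h0 : ∀ j ≤ n + 1, dig (2 ^ m.σ) y j = EE m k (i * m.b + j)
    · rw [if_pos h0, one_mul, chk_zz hm k i h0, bitZ_ite]
      refine if_congr ⟨fun h j hj => ?_, fun h => h _ le_rfl⟩ rfl rfl
      rcases Nat.lt_or_ge (n + 1) j with h1 | h1
      · rw [show j = n + 1 + 1 by omega]; exact h
      · exact h0 j h1
    · rw [if_neg h0, zero_mul, if_neg fun h => h0 fun j hj => h j (by omega)]

/-- At the true values the polynomials give the true values. -/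
theorem TRUTH : TRUTH_stmt := by
  intro m p _ hm k i u o hi
  unfold Mach.P
  by_cases hiG : i < m.G
  · rw [if_pos hiG]
    have hpow : 2 ^ (m.σ * (m.b + 1)) = (2 ^ m.σ) ^ (m.b + 1) := by rw [pow_mul]
    have hb := hm.hb
    obtain ⟨n, hn⟩ : ∃ n, m.b = n + 1 := ⟨m.b - 1, by omega⟩
    set d : ℕ → ℕ := fun r => EE m k (i * m.b + r) with hd
    have hdlt : ∀ j < m.b + 1, d j < 2 ^ m.σ := fun j _ => EE_lt hm k _
    have hy0 : tab (2 ^ m.σ) (m.b + 1) d < 2 ^ (m.σ * (m.b + 1)) := by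
      rw [hpow]; exact tab_lt hdlt
    have hdig : ∀ j ≤ m.b, dig (2 ^ m.σ) (tab (2 ^ m.σ) (m.b + 1) d) j = d j :=
      fun j hj => dig_tab hdlt (by omega)
    have hprod : ∀ y, ∏ r ∈ range m.b, fhat p (m.nv i) (m.chk i y r) 0
        (m.vars p i (fun j => m.V p k (j / m.wn) u (j % m.wn))
          (m.T p k (m.A (dig (2 ^ m.σ) y r)))) =
        if ∀ j ≤ m.b, dig (2 ^ m.σ) y j = d j then 1 else 0 := by
      intro y
      have h1 := prod_chk hm p k i y n
      rw [← hn] at h1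
      rw [← h1]
      exact prod_congr rfl fun r _ => fhat_true hm p k u _ hi _ _
    rw [Finset.sum_eq_single (tab (2 ^ m.σ) (m.b + 1) d)]
    · rw [hprod, if_pos hdig, one_mul]
      unfold Mach.V Mach.vn
      rw [if_pos hiG]
      congr 1
      rw [tab_succ', Nat.add_mul_div_left _ _ (by positivity),
        Nat.div_eq_of_lt (hdlt 0 (by omega)), zero_add]
      refine tab_congr fun r _ => ?_
      rw [hd]
      unfold EE
      simp only
      congr 2
      ring
    · intro y hy hne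
      rw [hprod, if_neg, zero_mul]
      intro h
      refine hne ?_
      rw [mem_range, hpow] at hy
      rw [← tab_dig y (m.b + 1) hy]
      exact tab_congr fun j hj => h j (by omega)
    · intro h
      exact absurd (mem_range.mpr hy0) h
  · have hG : i = m.G := by omega
    subst hG
    rw [if_neg hiG, fhat_true hm p k u u le_rfl]
    unfold Mach.V Mach.vn
    rw [if_neg hiG]
    congr 1
    unfold Mach.top
    rw [ez_zz hm k m.G u le_rfl,
      cont_zz hm k m.G u 0 (fun t ht => ev_zz hm k m.G u 0 (n := 0) (by omega)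
        fun j hj => absurd hj (Nat.not_lt_zero _))]
    unfold EE CC Mach.tn
    have h : k * (m.G * m.b) + m.G * m.b = (k + 1) * (m.G * m.b) := by ring
    rw [h]

end Pool.Agent.Helper32.Tok
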